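import Pool.Agent.H373R3.MY.Joint

/-!
# The nonuniform nonautonomous Markus-Yamabe conjecture holds

The idea: along a solution `x` of `x' = f(t, x)` one has `x' = M(t) x` with
`M(t) = ∫_0^1 Jf(t, r x(t)) dr`. Switching `r` through `[0, 1]` faster and faster produces a
piecewise continuous `ω(t) = r(t) x(t)` such that `T(t₀, t) x(t)` stays close to `x(t₀)`, where `T`
is the evolution operator of `Jf(t, ω(t))`. As `T(t, t₀) → 0` by (G3), the solution tends to zero.
Gluing such `ω` gives a bound for `T(t, t₀)` which is uniform over all `ω` with `|ω| ≤ η`, and this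
gives the stability of the origin.
-/

set_option autoImplicit false

open Set Filter Topology MeasureTheory

namespace Pool.Agent.Results.MP_1775bc_an.MarkusYamabeHolds

open Pool.Agent.H373R3.MY

/-- Sanity check: the linear field `f(t, x) = -x` satisfies (G1), (G2) and (G3). -/
lemma sanity {E : Type*} [NormedAddCommGroup E] [NormedSpace ℝ E] [CompleteSpace E] :
    G1 (fun (_ : ℝ) (x : E) => -x) ∧ G2 (fun (_ : ℝ) (x : E) => -x) ∧
      G3 (fun (_ : ℝ) (x : E) => -x) := by
  refine ⟨⟨?_, ?_, ?_⟩, ?_, ?_⟩
  · fun_prop
  · intro t _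
    exact contDiff_neg
  · intro t₀ _ x₀
    refine ⟨fun t => Real.exp (-(t - t₀)) • x₀, by simp, fun t _ => ?_⟩
    have h : HasDerivAt (fun t : ℝ => Real.exp (-(t - t₀))) (Real.exp (-(t - t₀)) * (-1)) t := by
      have h1 : HasDerivAt (fun t : ℝ => -(t - t₀)) (-1) t := ((hasDerivAt_id t).sub_const t₀).neg
      exact h1.exp
    have := (h.smul_const x₀).hasDerivWithinAt (s := Ici t₀)
    convert this using 1
    rw [mul_neg_one, neg_smul]
  · intro t _
    simp
  · intro ω _
    have hfd : (fun t : ℝ => fderiv ℝ (fun x : E => -x) (ω t)) =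
        fun _ => -ContinuousLinearMap.id ℝ E := by
      funext t
      exact (hasFDerivAt_id (ω t)).neg.fderiv
    rw [hfd]
    refine ⟨pc_of_continuous continuous_const, fun t _ => by ext; simp,
      fun t s => Real.exp (-(t - s)) • ContinuousLinearMap.id ℝ E, ⟨?_, ?_⟩, ?_, 1, 1, 0, le_rfl,
      le_rfl, one_pos, ?_, ?_⟩
    · intro s _
      apply Continuous.continuousOn
      fun_prop
    · intro s t _ _
      have h : ∀ τ ∈ uIcc s t, HasDerivAt
          (fun τ : ℝ => Real.exp (-(τ - s)) • ContinuousLinearMap.id ℝ E)
          ((-ContinuousLinearMap.id ℝ E).comp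
            (Real.exp (-(τ - s)) • ContinuousLinearMap.id ℝ E)) τ := by
        intro τ _
        have h1 : HasDerivAt (fun t : ℝ => -(t - s)) (-1) τ := ((hasDerivAt_id τ).sub_const s).neg
        have h2 := (h1.exp.smul_const (ContinuousLinearMap.id ℝ E))
        have e : (-ContinuousLinearMap.id ℝ E).comp
            (Real.exp (-(τ - s)) • ContinuousLinearMap.id ℝ E) =
            (Real.exp (-(τ - s)) * (-1)) • ContinuousLinearMap.id ℝ E := by
          ext x
          simp
        rw [e]
        exact h2
      have hi := intervalIntegral.integral_eq_sub_of_hasDerivAt h (by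
        apply Continuous.intervalIntegrable
        fun_prop)
      rw [hi]
      simp
    · intro s t _ _
      ext x
      simp
    · intro s t _ hst
      have : (Real.exp (-(t - s)) • ContinuousLinearMap.id ℝ E).comp
          (ContinuousLinearMap.id ℝ E) = Real.exp (-(t - s)) • ContinuousLinearMap.id ℝ E := by
        ext; simp
      rw [this, norm_smul, Real.norm_of_nonneg (Real.exp_pos _).le, one_mul]
      calc Real.exp (-(t - s)) * ‖ContinuousLinearMap.id ℝ E‖ ≤ Real.exp (-(t - s)) * 1 := by
            gcongr
            exact ContinuousLinearMap.norm_id_le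
        _ = Real.exp (-1 * (t - s) + 0 * s) := by rw [mul_one]; congr 1; ring
    · intro t s _ _
      simp
      positivity

/-- **The nonuniform nonautonomous Markus-Yamabe conjecture.** Let `E` be a finite-dimensional real
normed space (`ℝⁿ` with any norm) and let `f : [0, ∞) × E → E` satisfy (G1), (G2), (G3). Then the
trivial solution of `x' = f(t, x)` is globally nonuniformly asymptotically stable. -/
theorem result {E : Type*} [NormedAddCommGroup E] [NormedSpace ℝ E] [FiniteDimensional ℝ E]
    (f : ℝ → E → E) (h1 : G1 f) (h2 : G2 f) (h3 : G3 f) :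
    GloballyNonuniformlyAsymptoticallyStable f := by
  have : CompleteSpace E := FiniteDimensional.complete ℝ E
  refine main_of_jointly_continuous h1 h2 (joint_continuity h1 fun ω hω => (h3 ω hω).1) ?_
  intro ω hω
  obtain ⟨hA, -, T, hT, -, K, γ, ε, -, hε, hεγ, hdec, -⟩ := h3 ω hω
  refine ⟨hA, T, hT, fun s hs => ?_⟩
  rw [tendsto_zero_iff_norm_tendsto_zero]
  have hlim : Tendsto (fun t => K * Real.exp (-γ * (t - s) + ε * s)) atTop (𝓝 0) := by
    have hγ : 0 < γ := lt_of_le_of_lt hε hεγ
    have h4 : Tendsto (fun t : ℝ => -γ * (t - s) + ε * s) atTop atBot := by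
      apply tendsto_atBot_add_const_right
      have h5 : Tendsto (fun t : ℝ => t - s) atTop atTop := tendsto_atTop_add_const_right _ _
        tendsto_id
      exact h5.const_mul_atTop_of_neg (by linarith)
    have := (Real.tendsto_exp_atBot.comp h4).const_mul K
    simpa using this
  apply squeeze_zero' (Eventually.of_forall fun t => norm_nonneg _) _ hlim
  filter_upwards [eventually_ge_atTop s] with t ht
  have := hdec s t hs ht
  rwa [ContinuousLinearMap.comp_id] at this

end Pool.Agent.Results.MP_1775bc_an.MarkusYamabeHolds
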